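import Pool.Agent.H369.AS.Stm

/-!
# AS6: sections with poles of order at most `n` at infinity
-/

set_option autoImplicit false
set_option maxHeartbeats 4000000
set_option synthInstance.maxHeartbeats 400000

namespace Pool.Agent.H603.AS

open TensorProduct Pool.Agent.TH549.CK Pool.Agent.H369.TH Pool.Agent.H369.CFG Pool.Agent.H369.SM
open Pool.Agent.H369.PL Pool.Agent.H369.RE Pool.Agent.H369.CB Pool.Agent.H369.AS

/-- the sections over the extension field are combinations of the sections over the field -/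
theorem span_Lp {k : Type} [Field k] (R : Subalgebra k (LaurentSeries k)) (Ω : Type) [Field Ω]
    [Algebra k Ω] (n d : ℕ) (h : Fin d → R)
    (hs : ∀ f ∈ Lp R n, ∃ c : Fin d → k, f = ∑ a, c a • h a)
    (r : ext R Ω) (hr : r ∈ Lp (ext R Ω) n) : ∃ c : Fin d → Ω, r = ∑ a, c a • up R Ω (h a) := by
  classical
  let b := Module.Basis.ofVectorSpace k Ω
  obtain ⟨J, c, hJ, hc⟩ := P8.coords R b r.2
  have hcL : ∀ i, c i ∈ Lp R n := by
    intro i l hl
    rw [← hc i l, hr l hl, map_zero]
    rfl
  choose e he using fun i => hs (c i) (hcL i)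
  refine ⟨fun a => ∑ i ∈ J, e i a • b i, ?_⟩
  apply Subtype.ext
  ext l
  have h1 : ((r : ext R Ω) : LaurentSeries Ω).coeff l =
      ∑ i ∈ J, (c i : LaurentSeries k).coeff l • b i := by
    rw [← b.linearCombination_repr (((r : ext R Ω) : LaurentSeries Ω).coeff l),
      Finsupp.linearCombination_apply, Finsupp.sum]
    have h2 : (b.repr (((r : ext R Ω) : LaurentSeries Ω).coeff l)).support ⊆ J := by
      intro i hi
      by_contra h3
      rw [Finsupp.mem_support_iff] at hi
      apply hi
      rw [hc, hJ i h3]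
      rfl
    rw [Finset.sum_subset h2 (by
      intro i _ hi
      rw [Finsupp.notMem_support_iff.1 hi, zero_smul])]
    refine Finset.sum_congr rfl fun i _ => ?_
    rw [hc]
  have h2 : ∀ i, (c i : LaurentSeries k).coeff l =
      ∑ a, e i a * (h a : LaurentSeries k).coeff l := by
    intro i
    have h3 := congrArg (fun y : R => (y : LaurentSeries k).coeff l) (he i)
    refine h3.trans ?_
    show ((∑ a, e i a • h a : R) : LaurentSeries k).coeff l = _
    rw [P8.sum_coe]
    exact Finset.sum_congr rfl fun a _ => P8.smul_coe R _ _ l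
  have h4 : ∀ a, (((∑ i ∈ J, e i a • b i) • up R Ω (h a) : ext R Ω) : LaurentSeries Ω).coeff l =
      ∑ i ∈ J, (e i a * (h a : LaurentSeries k).coeff l) • b i := by
    intro a
    rw [P8.smul_coe, coeff_up, Finset.sum_mul]
    refine Finset.sum_congr rfl fun i _ => ?_
    rw [mul_smul, smul_mul_assoc]
    congr 1
    rw [Algebra.smul_def, mul_comm]
  rw [h1, P8.sum_coe, Finset.sum_congr rfl fun a _ => h4 a, Finset.sum_comm]
  refine Finset.sum_congr rfl fun i _ => ?_
  rw [h2 i, Finset.sum_smul]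

section
variable {k : Type} [Field k] (R : Subalgebra k (LaurentSeries k)) (Ω : Type) [Field Ω]
    [Algebra k Ω]

/-- tensors of combinations -/
theorem tens {d : ℕ} {M : Type} [AddCommGroup M] [Module Ω M] (φ : Fin d → M) (V : Submodule Ω M)
    (hV : ∀ f ∈ V, ∃ c : Fin d → Ω, f = ∑ a, c a • φ a) (H : M ⊗[Ω] M)
    (hH : H ∈ LinearMap.range (TensorProduct.map V.subtype V.subtype)) :
    ∃ c : Fin d → Fin d → Ω, H = ∑ a, ∑ b, c a b • (φ a ⊗ₜ[Ω] φ b) := by
  obtain ⟨t, rfl⟩ := hH
  induction t using TensorProduct.induction_on with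
  | zero =>
    refine ⟨fun _ _ => 0, ?_⟩
    simp
  | tmul x y =>
    obtain ⟨c, hc⟩ := hV x x.2
    obtain ⟨c', hc'⟩ := hV y y.2
    refine ⟨fun a b => c a * c' b, ?_⟩
    rw [TensorProduct.map_tmul, Submodule.subtype_apply, Submodule.subtype_apply, hc, hc',
      TensorProduct.sum_tmul]
    refine Finset.sum_congr rfl fun a _ => ?_
    rw [TensorProduct.tmul_sum]
    refine Finset.sum_congr rfl fun b _ => ?_
    rw [TensorProduct.smul_tmul_smul]
  | add x y hx hy =>
    obtain ⟨c, hc⟩ := hx
    obtain ⟨c', hc'⟩ := hy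
    refine ⟨fun a b => c a b + c' a b, ?_⟩
    rw [map_add, hc, hc']
    simp only [add_smul, Finset.sum_add_distrib]

end

theorem bas : S_bas := by
  intro k _ R Ω _ _ PP C o ho hreg n d h hs _ _ H hH
  refine tens Ω (fun a => algebraMap _ (FractionRing (ext R Ω)) (up R Ω (h a)))
    (C.L (Finsupp.single o (n : ℤ))) ?_ H hH
  intro f hf
  obtain ⟨r, hr⟩ := hreg f (fun x hx l hl => hf x l (by
    rw [Finsupp.single_eq_of_ne hx]
    simpa using hl))
  have hrL : r ∈ Lp (ext R Ω) n := by
    intro l hl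
    rw [← ho r, hr]
    refine hf o l ?_
    rw [Finsupp.single_eq_same]
    exact hl
  obtain ⟨c, hc⟩ := span_Lp R Ω n d h hs r hrL
  refine ⟨c, ?_⟩
  rw [← hr, hc, map_sum]
  refine Finset.sum_congr rfl fun a _ => ?_
  rw [Algebra.smul_def, map_mul, Algebra.smul_def]
  congr 1

end Pool.Agent.H603.AS
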